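import Pool.Agent.U281.EqEhr.Act

/-! Counting of fixed points and coefficients of the equivariant series of the example. -/

set_option autoImplicit false

open scoped Pointwise

namespace Pool.Agent.U281.EqEhr

open Finset

theorem count_one : (PowerSeries.mk (fun m : ℕ =>
          ((Set.ncard {x : Fin 7 → ℤ |
              (fun j => ((x j : ℤ) : ℝ)) ∈ (m : ℝ) • PP ∧
              Matrix.mulVec (rho7 1 : Matrix (Fin 7) (Fin 7) ℤ) x = x} : ℕ) : ℤ))) =
    PowerSeries.mk fun m => ((allPts m).card : ℤ) := by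
  ext m
  rw [PowerSeries.coeff_mk, PowerSeries.coeff_mk]
  congr 1
  rw [← Set.ncard_coe_finset]
  congr 1
  ext x
  rw [Set.mem_ofPred_eq, Finset.mem_coe, mem_allPts, rho7_one, Matrix.one_mulVec]
  have := mem_dil_iff m x
  change toR x ∈ (m : ℝ) • PP ∧ _ ↔ _
  rw [this]
  simp

theorem count_neg : (PowerSeries.mk (fun m : ℕ =>
          ((Set.ncard {x : Fin 7 → ℤ |
              (fun j => ((x j : ℤ) : ℝ)) ∈ (m : ℝ) • PP ∧
              Matrix.mulVec (rho7 (-1) : Matrix (Fin 7) (Fin 7) ℤ) x = x} : ℕ) : ℤ))) =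
    PowerSeries.mk fun m => ((fixPts m).card : ℤ) := by
  ext m
  rw [PowerSeries.coeff_mk, PowerSeries.coeff_mk]
  congr 1
  rw [← Set.ncard_coe_finset]
  congr 1
  ext x
  rw [Set.mem_ofPred_eq, Finset.mem_coe, mem_fixPts, rho7_neg, RM_mulVec]
  have := mem_dil_iff m x
  change toR x ∈ (m : ℝ) • PP ∧ _ ↔ _
  rw [this]
  apply and_congr Iff.rfl
  constructor
  · intro h
    exact congrFun h 0
  · intro h
    funext i
    fin_cases i
    · exact h
    all_goals rfl

theorem coeff_pol_one (i : ℕ) (hi : 4 ≤ i) :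
    PowerSeries.coeff (R := ℤ) i (1 + PowerSeries.X + 2 * PowerSeries.X ^ 3) = 0 := by
  have e : (2 : PowerSeries ℤ) * PowerSeries.X ^ 3 =
    PowerSeries.X ^ 3 + PowerSeries.X ^ 3 := by ring
  rw [e]
  simp only [map_add, PowerSeries.coeff_one, PowerSeries.coeff_X, PowerSeries.coeff_X_pow]
  rw [if_neg (by omega), if_neg (by omega), if_neg (by omega)]
  norm_num

theorem coeff_pol_neg (i : ℕ) (hi : 4 ≤ i) :
    PowerSeries.coeff (R := ℤ) i (1 - PowerSeries.X + 2 * PowerSeries.X ^ 2) = 0 := by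
  have e : (2 : PowerSeries ℤ) * PowerSeries.X ^ 2 =
    PowerSeries.X ^ 2 + PowerSeries.X ^ 2 := by ring
  rw [e]
  simp only [map_add, map_sub, PowerSeries.coeff_one, PowerSeries.coeff_X,
    PowerSeries.coeff_X_pow]
  rw [if_neg (by omega), if_neg (by omega), if_neg (by omega)]
  norm_num

theorem coeff_one_pol_one :
    PowerSeries.coeff (R := ℤ) 1 (1 + PowerSeries.X + 2 * PowerSeries.X ^ 3) = 1 := by
  have e : (2 : PowerSeries ℤ) * PowerSeries.X ^ 3 =
    PowerSeries.X ^ 3 + PowerSeries.X ^ 3 := by ring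
  rw [e]
  simp [PowerSeries.coeff_X_pow, PowerSeries.coeff_one]

theorem coeff_one_pol_neg :
    PowerSeries.coeff (R := ℤ) 1 (1 - PowerSeries.X + 2 * PowerSeries.X ^ 2) = -1 := by
  have e : (2 : PowerSeries ℤ) * PowerSeries.X ^ 2 =
    PowerSeries.X ^ 2 + PowerSeries.X ^ 2 := by ring
  rw [e]
  simp [PowerSeries.coeff_X_pow, PowerSeries.coeff_one]

end Pool.Agent.U281.EqEhr
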