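import Pool.Agent.U281.EqEhr.Geo

/-! The involution of the example and the equivariant series. -/

set_option autoImplicit false

open scoped Pointwise

namespace Pool.Agent.U281.EqEhr

open Finset

/-- The matrix of the involution `x ↦ z - x` on `ℤ^7`. -/
def RM : Matrix (Fin 7) (Fin 7) ℤ :=
  !![-1, 0, 1, -1, 0, 0, 0;
     0, 1, 0, 0, 0, 0, 0;
     0, 0, 1, 0, 0, 0, 0;
     0, 0, 0, 1, 0, 0, 0;
     0, 0, 0, 0, 1, 0, 0;
     0, 0, 0, 0, 0, 1, 0;
     0, 0, 0, 0, 0, 0, 1]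

/-- The matrix of the involution on `ℤ^6`. -/
def SM : Matrix (Fin 6) (Fin 6) ℤ :=
  !![-1, 0, 1, -1, 0, 0;
     0, 1, 0, 0, 0, 0;
     0, 0, 1, 0, 0, 0;
     0, 0, 0, 1, 0, 0;
     0, 0, 0, 0, 1, 0;
     0, 0, 0, 0, 0, 1]

theorem RM_sq : RM * RM = 1 := by decide

theorem SM_sq : SM * SM = 1 := by decide

/-- The involution as an element of the general linear group. -/
def RG : Matrix.GeneralLinearGroup (Fin 7) ℤ := ⟨RM, RM, RM_sq, RM_sq⟩

/-- The involution as an element of the general linear group. -/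
def SG : Matrix.GeneralLinearGroup (Fin 6) ℤ := ⟨SM, SM, SM_sq, SM_sq⟩

/-- The homomorphism from the group of order two defined by an involution. -/
def homOf {H : Type} [Group H] (r : H) (hr : r * r = 1) : ℤˣ →* H where
  toFun g := if g = 1 then 1 else r
  map_one' := by simp
  map_mul' a b := by
    rcases Int.units_eq_one_or a with rfl | rfl <;> rcases Int.units_eq_one_or b with rfl | rfl <;>
      simp [hr]

theorem RG_sq : RG * RG = 1 := by
  ext i j
  exact congrFun (congrFun RM_sq i) j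

theorem SG_sq : SG * SG = 1 := by
  ext i j
  exact congrFun (congrFun SM_sq i) j

/-- The action on `ℤ^7`. -/
def rho7 : ℤˣ →* Matrix.GeneralLinearGroup (Fin 7) ℤ := homOf RG RG_sq

/-- The action on `ℤ^6`. -/
def rho6 : ℤˣ →* Matrix.GeneralLinearGroup (Fin 6) ℤ := homOf SG SG_sq

theorem rho7_one : ((rho7 1 : Matrix.GeneralLinearGroup (Fin 7) ℤ) : Matrix (Fin 7) (Fin 7) ℤ) =
    1 := by
  rw [map_one]
  rfl

theorem rho7_neg : ((rho7 (-1) : Matrix.GeneralLinearGroup (Fin 7) ℤ) :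
    Matrix (Fin 7) (Fin 7) ℤ) = RM := rfl

theorem rho6_one : ((rho6 1 : Matrix.GeneralLinearGroup (Fin 6) ℤ) : Matrix (Fin 6) (Fin 6) ℤ) =
    1 := by
  rw [map_one]
  rfl

theorem rho6_neg : ((rho6 (-1) : Matrix.GeneralLinearGroup (Fin 6) ℤ) :
    Matrix (Fin 6) (Fin 6) ℤ) = SM := rfl

theorem RM_mulVec (x : Fin 7 → ℤ) :
    Matrix.mulVec RM x = ![x 2 - x 0 - x 3, x 1, x 2, x 3, x 4, x 5, x 6] := by
  funext i
  fin_cases i <;> simp [RM, Matrix.mulVec, dotProduct, Fin.sum_univ_seven] <;> ring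

theorem SM_mulVec (x : Fin 6 → ℤ) :
    Matrix.mulVec SM x = ![x 2 - x 0 - x 3, x 1, x 2, x 3, x 4, x 5] := by
  funext i
  fin_cases i <;> simp [SM, Matrix.mulVec, dotProduct, Fin.sum_univ_six] <;> ring

theorem det_one :
    Matrix.det (1 - (Polynomial.X : Polynomial ℤ) •
      (1 : Matrix (Fin 6) (Fin 6) ℤ).map Polynomial.C) = (1 - Polynomial.X) ^ 6 := by
  have e : (1 - (Polynomial.X : Polynomial ℤ) • (1 : Matrix (Fin 6) (Fin 6) ℤ).map Polynomial.C) =
      (1 - Polynomial.X : Polynomial ℤ) • (1 : Matrix (Fin 6) (Fin 6) (Polynomial ℤ)) := by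
    rw [Matrix.map_one _ (map_zero _) (map_one _), sub_smul, one_smul]
  rw [e, Matrix.det_smul, Matrix.det_one, mul_one, Fintype.card_fin]

theorem det_SM :
    Matrix.det (1 - (Polynomial.X : Polynomial ℤ) • SM.map Polynomial.C) =
      (1 - Polynomial.X) ^ 5 * (1 + Polynomial.X) := by
  rw [Matrix.det_of_upperTriangular]
  · rw [Fin.prod_univ_six]
    simp [SM]
    ring
  · intro i j hij
    simp only [id] at hij
    have hS : ∀ i j : Fin 6, j < i → SM i j = 0 := by decide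
    have h1 : (1 : Matrix (Fin 6) (Fin 6) (Polynomial ℤ)) i j = 0 :=
      Matrix.one_apply_ne (ne_of_gt hij)
    rw [Matrix.sub_apply, Matrix.smul_apply, Matrix.map_apply, hS i j hij, h1]
    simp

end Pool.Agent.U281.EqEhr
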