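import Pool.Agent.U281.EqEhr.Series

/-! The lattice points of the dilates of the example and the fixed lattice points. Coordinates
`(e, y, z, a, b, c, h)`; the lattice is `ℤ^7`, the real point `(x, y, z; u₁, …, u₄)` has
`x = e + a/2`, `u₁ = a/2`, `u₂ = a/2 + b`, `u₃ = a/2 + c`, `u₄ = h - z - 3a/2 - b - c`. -/

set_option autoImplicit false

namespace Pool.Agent.U281.EqEhr

open PowerSeries Finset

/-- The inequalities describing the `m`-th dilate, on integer points. -/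
def InDil (m : ℕ) (p : Fin 7 → ℤ) : Prop :=
  p 6 = m ∧ 0 ≤ p 3 ∧ 0 ≤ p 3 + 2 * p 4 ∧ 0 ≤ p 3 + 2 * p 5 ∧
    3 * p 3 + 2 * p 4 + 2 * p 5 + 2 * p 2 ≤ 2 * p 6 ∧ 0 ≤ p 3 + 2 * p 0 ∧
    p 3 + 2 * p 0 ≤ 2 * p 2 ∧ 0 ≤ p 1 ∧ p 1 ≤ p 2

/-- The underlying type of the tuples `(((((x, y), u₁), u₂), u₃), u₄)`. -/
abbrev Tup : Type := ((((ℕ × ℕ) × ℕ) × ℕ) × ℕ) × ℕ

/-- square part, integral class -/
def A0 (n : ℕ) : Finset (ℕ × ℕ) := Finset.range (n + 1) ×ˢ Finset.range (n + 1)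

/-- square part, other class -/
def A1 (n : ℕ) : Finset (ℕ × ℕ) := Finset.range n ×ˢ Finset.range (n + 1)

/-- fixed points, integral class -/
def B0 (n : ℕ) : Finset (ℕ × ℕ) :=
  if n % 2 = 0 then {n / 2} ×ˢ Finset.range (n + 1) else ∅

/-- fixed points, other class -/
def B1 (n : ℕ) : Finset (ℕ × ℕ) :=
  if n % 2 = 1 then {n / 2} ×ˢ Finset.range (n + 1) else ∅

theorem mem_B0 (n x y : ℕ) : (x, y) ∈ B0 n ↔ n % 2 = 0 ∧ x = n / 2 ∧ y < n + 1 := by
  rw [B0]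
  split_ifs with h
  · simp only [Finset.mem_product, Finset.mem_range, Finset.mem_singleton]
    tauto
  · simp [h]

theorem mem_B1 (n x y : ℕ) : (x, y) ∈ B1 n ↔ n % 2 = 1 ∧ x = n / 2 ∧ y < n + 1 := by
  rw [B1]
  split_ifs with h
  · simp only [Finset.mem_product, Finset.mem_range, Finset.mem_singleton]
    tauto
  · simp [h]

/-- the class shift by two -/
def shift2 {α : Type} (A : ℕ → Finset α) (m : ℕ) : Finset α := if 2 ≤ m then A (m - 2) else ∅

theorem gf_shift2 {α : Type} (A : ℕ → Finset α) : gf (shift2 A) = gf A * X ^ 2 := by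
  ext n
  rw [gf, coeff_mk, coeff_mul_X_pow', shift2]
  split_ifs with h
  · rw [gf, coeff_mk]
  · simp

theorem gf_A0 : gf A0 * (1 - X) ^ 3 = 1 + X := by
  rw [← gfA0]
  congr 1
  ext n
  simp [gf, A0]

theorem gf_A1 : gf A1 * (1 - X) ^ 3 = 2 * X := by
  rw [← gfA1]
  congr 1
  ext n
  simp [gf, A1]

theorem gf_B0 : gf B0 * (1 - X ^ 2) ^ 2 = 1 + X ^ 2 := by
  rw [← gfB0]
  congr 1
  ext n
  simp only [gf, coeff_mk, B0]
  split_ifs <;> simp

theorem gf_B1 : gf B1 * (1 - X ^ 2) ^ 2 = 2 * X := by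
  rw [← gfB1]
  congr 1
  ext n
  simp only [gf, coeff_mk, B1]
  split_ifs <;> simp

/-- The lattice point of a tuple in the class `δ = 0, 1`, at height `m`. -/
def pt (δ : ℕ) (m : ℕ) (t : Tup) : Fin 7 → ℤ :=
  ![(t.1.1.1.1.1 : ℤ) - t.1.1.1.2, t.1.1.1.1.2,
    (m : ℤ) - t.1.1.1.2 - t.1.1.2 - t.1.2 - t.2 - 2 * δ, 2 * t.1.1.1.2 + δ,
    (t.1.1.2 : ℤ) - t.1.1.1.2, (t.1.2 : ℤ) - t.1.1.1.2, m]

theorem pt_injective (δ m : ℕ) : Function.Injective (pt δ m) := by
  rintro ⟨⟨⟨⟨⟨x, y⟩, u1⟩, u2⟩, u3⟩, u4⟩ ⟨⟨⟨⟨⟨x', y'⟩, u1'⟩, u2'⟩, u3'⟩, u4'⟩ h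
  have h0 := congrFun h 0
  have h1 := congrFun h 1
  have h2 := congrFun h 2
  have h3 := congrFun h 3
  have h4 := congrFun h 4
  have h5 := congrFun h 5
  simp [pt] at h0 h1 h2 h3 h4 h5
  simp only [Prod.mk.injEq]
  refine ⟨⟨⟨⟨⟨?_, ?_⟩, ?_⟩, ?_⟩, ?_⟩, ?_⟩ <;> omega

theorem mem_ext4 (A : ℕ → Finset (ℕ × ℕ)) (m : ℕ) (t : Tup) :
    t ∈ ext (ext (ext (ext A))) m ↔ t.1.1.1.2 + t.1.1.2 + t.1.2 + t.2 ≤ m ∧
      t.1.1.1.1 ∈ A (m - (t.1.1.1.2 + t.1.1.2 + t.1.2 + t.2)) := by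
  obtain ⟨⟨⟨⟨a, u1⟩, u2⟩, u3⟩, u4⟩ := t
  simp only [mem_ext]
  constructor
  · rintro ⟨i1, h1, i2, h2, i3, h3, i4, h4, h⟩
    refine ⟨by omega, ?_⟩
    have : m - (u1 + u2 + u3 + u4) = i4 := by omega
    rw [this]
    exact h
  · rintro ⟨h1, h⟩
    exact ⟨m - u4, by omega, m - u4 - u3, by omega, m - u4 - u3 - u2, by omega,
      m - (u1 + u2 + u3 + u4), by omega, h⟩

/-- All lattice points of the `m`-th dilate. -/
def allPts (m : ℕ) : Finset (Fin 7 → ℤ) :=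
  ((ext (ext (ext (ext A0))) m).image (pt 0 m)) ∪
    ((shift2 (ext (ext (ext (ext A1)))) m).image (pt 1 m))

/-- All fixed lattice points of the `m`-th dilate. -/
def fixPts (m : ℕ) : Finset (Fin 7 → ℤ) :=
  ((ext (ext (ext (ext B0))) m).image (pt 0 m)) ∪
    ((shift2 (ext (ext (ext (ext B1)))) m).image (pt 1 m))

theorem disj (m : ℕ) (S T : Finset Tup) :
    Disjoint (S.image (pt 0 m)) (T.image (pt 1 m)) := by
  rw [Finset.disjoint_left]
  intro p h1 h2
  obtain ⟨t, -, rfl⟩ := Finset.mem_image.1 h1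
  obtain ⟨t', -, h⟩ := Finset.mem_image.1 h2
  have h3 := congrFun h 3
  simp [pt] at h3
  omega

theorem card_allPts (m : ℕ) : (allPts m).card =
    (ext (ext (ext (ext A0))) m).card + (shift2 (ext (ext (ext (ext A1)))) m).card := by
  rw [allPts, Finset.card_union_of_disjoint (disj m _ _), Finset.card_image_of_injective _
    (pt_injective 0 m), Finset.card_image_of_injective _ (pt_injective 1 m)]

theorem card_fixPts (m : ℕ) : (fixPts m).card =
    (ext (ext (ext (ext B0))) m).card + (shift2 (ext (ext (ext (ext B1)))) m).card := by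
  rw [fixPts, Finset.card_union_of_disjoint (disj m _ _), Finset.card_image_of_injective _
    (pt_injective 0 m), Finset.card_image_of_injective _ (pt_injective 1 m)]

theorem mem_shift2 {α : Type} (A : ℕ → Finset α) (m : ℕ) (a : α) :
    a ∈ shift2 A m ↔ 2 ≤ m ∧ a ∈ A (m - 2) := by
  rw [shift2]
  split_ifs with h
  · simp [h]
  · simp [h]

/-- the tuple of a lattice point -/
def tup (δ : ℕ) (p : Fin 7 → ℤ) : Tup :=
  let u := ((p 3 - δ) / 2)
  (((((((p 0 + u).toNat, (p 1).toNat), u.toNat), (p 4 + u).toNat), (p 5 + u).toNat),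
    (p 6 - p 2 - 3 * u - p 4 - p 5 - 2 * δ).toNat))

theorem mem_allPts (m : ℕ) (p : Fin 7 → ℤ) : p ∈ allPts m ↔ InDil m p := by
  rw [allPts, Finset.mem_union, Finset.mem_image, Finset.mem_image]
  constructor
  · rintro (⟨t, ht, rfl⟩ | ⟨t, ht, rfl⟩)
    · rw [mem_ext4] at ht
      obtain ⟨⟨⟨⟨⟨x, y⟩, u1⟩, u2⟩, u3⟩, u4⟩ := t
      simp only [A0, Finset.mem_product, Finset.mem_range] at ht
      simp only [InDil, pt, Matrix.cons_val]
      refine ⟨trivial, ?_, ?_, ?_, ?_, ?_, ?_, ?_, ?_⟩ <;> push_cast <;> omega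
    · rw [mem_shift2, mem_ext4] at ht
      obtain ⟨⟨⟨⟨⟨x, y⟩, u1⟩, u2⟩, u3⟩, u4⟩ := t
      simp only [A1, Finset.mem_product, Finset.mem_range] at ht
      simp only [InDil, pt, Matrix.cons_val]
      refine ⟨trivial, ?_, ?_, ?_, ?_, ?_, ?_, ?_, ?_⟩ <;> push_cast <;> omega
  · rintro ⟨h1, h2, h3, h4, h5, h6, h7, h8, h9⟩
    rcases Int.emod_two_eq_zero_or_one (p 3) with h | h
    · left
      refine ⟨tup 0 p, ?_, ?_⟩
      · rw [mem_ext4]
        simp only [tup, A0, Finset.mem_product, Finset.mem_range]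
        refine ⟨?_, ?_, ?_⟩ <;> push_cast <;> omega
      · funext i
        fin_cases i <;> simp [pt, tup] <;> omega
    · right
      refine ⟨tup 1 p, ?_, ?_⟩
      · rw [mem_shift2, mem_ext4]
        simp only [tup, A1, Finset.mem_product, Finset.mem_range]
        refine ⟨?_, ?_, ?_, ?_⟩ <;> push_cast <;> omega
      · funext i
        fin_cases i <;> simp [pt, tup] <;> omega

theorem mem_fixPts (m : ℕ) (p : Fin 7 → ℤ) :
    p ∈ fixPts m ↔ InDil m p ∧ p 2 - p 0 - p 3 = p 0 := by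
  rw [fixPts, Finset.mem_union, Finset.mem_image, Finset.mem_image]
  constructor
  · rintro (⟨t, ht, rfl⟩ | ⟨t, ht, rfl⟩)
    · rw [mem_ext4] at ht
      obtain ⟨⟨⟨⟨⟨x, y⟩, u1⟩, u2⟩, u3⟩, u4⟩ := t
      obtain ⟨ht1, ht2⟩ := ht
      simp only [B0] at ht1 ht2
      split_ifs at ht2 with h
      · simp only [Finset.mem_product, Finset.mem_range, Finset.mem_singleton] at ht2
        simp only [InDil, pt, Matrix.cons_val]
        refine ⟨⟨trivial, ?_, ?_, ?_, ?_, ?_, ?_, ?_, ?_⟩, ?_⟩ <;> push_cast <;> omega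
      · simp at ht2
    · rw [mem_shift2, mem_ext4] at ht
      obtain ⟨⟨⟨⟨⟨x, y⟩, u1⟩, u2⟩, u3⟩, u4⟩ := t
      obtain ⟨ht0, ht1, ht2⟩ := ht
      simp only [B1] at ht1 ht2
      split_ifs at ht2 with h
      · simp only [Finset.mem_product, Finset.mem_range, Finset.mem_singleton] at ht2
        simp only [InDil, pt, Matrix.cons_val]
        refine ⟨⟨trivial, ?_, ?_, ?_, ?_, ?_, ?_, ?_, ?_⟩, ?_⟩ <;> push_cast <;> omega
      · simp at ht2
  · rintro ⟨⟨h1, h2, h3, h4, h5, h6, h7, h8, h9⟩, hf⟩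
    rcases Int.emod_two_eq_zero_or_one (p 3) with h | h
    · left
      refine ⟨tup 0 p, ?_, ?_⟩
      · rw [mem_ext4]
        refine ⟨?_, ?_⟩
        · simp only [tup]
          push_cast
          omega
        · simp only [tup]
          rw [mem_B0]
          refine ⟨?_, ?_, ?_⟩ <;> push_cast <;> omega
      · funext i
        fin_cases i <;> simp [pt, tup] <;> omega
    · right
      refine ⟨tup 1 p, ?_, ?_⟩
      · rw [mem_shift2, mem_ext4]
        refine ⟨?_, ?_, ?_⟩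
        · omega
        · simp only [tup]
          push_cast
          omega
        · simp only [tup]
          rw [mem_B1]
          refine ⟨?_, ?_, ?_⟩ <;> push_cast <;> omega
      · funext i
        fin_cases i <;> simp [pt, tup] <;> omega

/-- The Ehrhart series of the polytope. -/
theorem series_all : (PowerSeries.mk fun m => ((allPts m).card : ℤ)) * (1 - X) ^ 7 =
    1 + X + 2 * X ^ 3 := by
  have e : (PowerSeries.mk fun m => ((allPts m).card : ℤ)) =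
      gf (ext (ext (ext (ext A0)))) + gf (ext (ext (ext (ext A1)))) * X ^ 2 := by
    rw [← gf_shift2]
    ext n
    simp [gf, card_allPts]
  rw [e]
  have e2 : (gf (ext (ext (ext (ext A0)))) + gf (ext (ext (ext (ext A1)))) * X ^ 2) *
      (1 - X) ^ 7 = (gf (ext (ext (ext (ext A0)))) * (1 - X) ^ 4) * (1 - X) ^ 3 +
        (gf (ext (ext (ext (ext A1)))) * (1 - X) ^ 4) * (1 - X) ^ 3 * X ^ 2 := by ring
  rw [e2, gf_ext4, gf_ext4, gf_A0, gf_A1]
  ring

/-- The Ehrhart series of the fixed part. -/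
theorem series_fix : (PowerSeries.mk fun m => ((fixPts m).card : ℤ)) *
    ((1 - X) ^ 6 * (1 + X)) = 1 - X + 2 * X ^ 2 := by
  have e : (PowerSeries.mk fun m => ((fixPts m).card : ℤ)) =
      gf (ext (ext (ext (ext B0)))) + gf (ext (ext (ext (ext B1)))) * X ^ 2 := by
    rw [← gf_shift2]
    ext n
    simp [gf, card_fixPts]
  have hne : (1 + X : PowerSeries ℤ) ≠ 0 := by
    intro h
    have := congrArg (coeff (R := ℤ) 0) h
    simp at this
  apply mul_right_cancel₀ hne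
  rw [e]
  have e2 : (gf (ext (ext (ext (ext B0)))) + gf (ext (ext (ext (ext B1)))) * X ^ 2) *
      ((1 - X) ^ 6 * (1 + X)) * (1 + X) =
        (gf (ext (ext (ext (ext B0)))) * (1 - X) ^ 4) * (1 - X ^ 2) ^ 2 +
        (gf (ext (ext (ext (ext B1)))) * (1 - X) ^ 4) * (1 - X ^ 2) ^ 2 * X ^ 2 := by ring
  rw [e2, gf_ext4, gf_ext4, gf_B0, gf_B1]
  ring

end Pool.Agent.U281.EqEhr
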