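import Pool.Agent.U281.EqEhr.Count

/-! The polytope of the example: lattice points of its dilates, its linear span. -/

set_option autoImplicit false

open scoped Pointwise

namespace Pool.Agent.U281.EqEhr

open Finset

/-- integer vectors as real vectors -/
def toR {n : ℕ} (v : Fin n → ℤ) : Fin n → ℝ := fun j => ((v j : ℤ) : ℝ)

/-- The vertices of the polytope. -/
def W : Fin 8 → (Fin 7 → ℤ) :=
  ![![0, 0, 1, 0, 0, 0, 1], ![1, 0, 1, 0, 0, 0, 1], ![0, 1, 1, 0, 0, 0, 1],
    ![1, 1, 1, 0, 0, 0, 1], ![-1, 0, 0, 2, -1, -1, 1], ![0, 0, 0, 0, 1, 0, 1],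
    ![0, 0, 0, 0, 0, 1, 1], ![0, 0, 0, 0, 0, 0, 1]]

/-- The set of vertices. -/
def VV : Finset (Fin 7 → ℤ) := Finset.univ.image W

/-- The polytope. -/
def PP : Set (Fin 7 → ℝ) := convexHull ℝ (toR '' (VV : Set (Fin 7 → ℤ)))

theorem W_mem (i : Fin 8) : toR (W i) ∈ PP := by
  apply subset_convexHull
  exact ⟨W i, by simp [VV], rfl⟩

/-- a linear functional nonnegative on the vertices is nonnegative on the dilates -/
theorem nonneg_of_mem (c : Fin 7 → ℤ) (hc : ∀ i, 0 ≤ ∑ j, c j * W i j) (m : ℕ)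
    (x : Fin 7 → ℝ) (hx : x ∈ (m : ℝ) • PP) : 0 ≤ ∑ j, (c j : ℝ) * x j := by
  obtain ⟨q, hq, rfl⟩ := hx
  let L : (Fin 7 → ℝ) →ₗ[ℝ] ℝ := ∑ j, (c j : ℝ) • LinearMap.proj j
  have hL : ∀ y, L y = ∑ j, (c j : ℝ) * y j := by
    intro y
    simp [L, LinearMap.sum_apply]
  have hsub : PP ⊆ {y | 0 ≤ L y} := by
    apply convexHull_min
    · rintro _ ⟨v, hv, rfl⟩
      have hv' : v ∈ VV := hv
      rw [VV, Finset.mem_image] at hv'
      obtain ⟨i, -, rfl⟩ := hv'
      rw [Set.mem_ofPred_eq, hL]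
      have := hc i
      have h2 : ∑ j, (c j : ℝ) * toR (W i) j = ((∑ j, c j * W i j : ℤ) : ℝ) := by
        push_cast
        rfl
      rw [h2]
      exact_mod_cast this
    · exact convex_halfSpace_ge L.isLinear 0
  have h1 : 0 ≤ L q := hsub hq
  have h2 : ∑ j, (c j : ℝ) * ((m : ℝ) • q) j = (m : ℝ) * L q := by
    rw [hL, Finset.mul_sum]
    apply Finset.sum_congr rfl
    intro j _
    simp only [Pi.smul_apply, smul_eq_mul]
    ring
  simp only at h2 ⊢
  rw [h2]
  positivity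

theorem height_of_mem (m : ℕ) (x : Fin 7 → ℝ) (hx : x ∈ (m : ℝ) • PP) : x 6 = m := by
  obtain ⟨q, hq, rfl⟩ := hx
  have hsub : PP ⊆ {y | y 6 = 1} := by
    apply convexHull_min
    · rintro _ ⟨v, hv, rfl⟩
      have hv' : v ∈ VV := hv
      rw [VV, Finset.mem_image] at hv'
      obtain ⟨i, -, rfl⟩ := hv'
      rw [Set.mem_ofPred_eq, toR]
      have : W i 6 = 1 := by revert i; decide
      rw [this]; norm_num
    · intro y hy z hz a b _ _ hab
      simp only [Set.mem_ofPred_eq] at hy hz ⊢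
      simp [hy, hz, hab]
  have h1 : q 6 = 1 := hsub hq
  simp [h1]

/-- a nonnegative combination of the vertices with total weight `m` is in the dilate -/
theorem mem_of_weights (m : ℕ) (w : Fin 8 → ℝ) (hw : ∀ i, 0 ≤ w i) (hs : ∑ i, w i = m) :
    ∑ i, w i • toR (W i) ∈ (m : ℝ) • PP := by
  rcases Nat.eq_zero_or_pos m with h | h
  · subst h
    have hz : ∀ i, w i = 0 := by
      intro i
      rw [Nat.cast_zero] at hs
      exact (Finset.sum_eq_zero_iff_of_nonneg (fun i _ => hw i)).1 hs i (Finset.mem_univ i)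
    refine ⟨toR (W 0), W_mem 0, ?_⟩
    simp [hz]
  · have hm : (0 : ℝ) < m := by exact_mod_cast h
    refine ⟨∑ i, (w i / m) • toR (W i), ?_, ?_⟩
    · apply (convex_convexHull ℝ _).sum_mem
      · intro i _
        exact div_nonneg (hw i) hm.le
      · rw [← Finset.sum_div, hs, div_self hm.ne']
      · intro i _
        exact W_mem i
    · simp only [Finset.smul_sum, smul_smul]
      apply Finset.sum_congr rfl
      intro i _
      rw [mul_div_cancel₀ _ hm.ne']

theorem mem_dil_iff (m : ℕ) (p : Fin 7 → ℤ) : toR p ∈ (m : ℝ) • PP ↔ InDil m p := by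
  constructor
  · intro h
    have key : ∀ c : Fin 7 → ℤ, (∀ i, 0 ≤ ∑ j, c j * W i j) → 0 ≤ ∑ j, c j * p j := by
      intro c hc
      have := nonneg_of_mem c hc m _ h
      have h2 : ∑ j, (c j : ℝ) * toR p j = ((∑ j, c j * p j : ℤ) : ℝ) := by
        push_cast
        rfl
      rw [h2] at this
      exact_mod_cast this
    have h6 : p 6 = m := by
      have := height_of_mem m _ h
      rw [toR] at this
      exact_mod_cast this
    have k1 := key ![0, 0, 0, 1, 0, 0, 0] (by decide)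
    have k2 := key ![0, 0, 0, 1, 2, 0, 0] (by decide)
    have k3 := key ![0, 0, 0, 1, 0, 2, 0] (by decide)
    have k4 := key ![0, 0, -2, -3, -2, -2, 2] (by decide)
    have k5 := key ![2, 0, 0, 1, 0, 0, 0] (by decide)
    have k6 := key ![-2, 0, 2, -1, 0, 0, 0] (by decide)
    have k7 := key ![0, 1, 0, 0, 0, 0, 0] (by decide)
    have k8 := key ![0, -1, 1, 0, 0, 0, 0] (by decide)
    simp [Fin.sum_univ_seven] at k1 k2 k3 k4 k5 k6 k7 k8
    refine ⟨h6, ?_, ?_, ?_, ?_, ?_, ?_, ?_, ?_⟩ <;> linarith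
  · rintro ⟨h6, h1, h2, h3, h4, h5, h7, h8, h9⟩
    have r6 : (p 6 : ℝ) = m := by exact_mod_cast h6
    have r1 : (0 : ℝ) ≤ p 3 := by exact_mod_cast h1
    have r2 : (0 : ℝ) ≤ p 3 + 2 * p 4 := by exact_mod_cast h2
    have r3 : (0 : ℝ) ≤ p 3 + 2 * p 5 := by exact_mod_cast h3
    have r4 : 3 * (p 3 : ℝ) + 2 * p 4 + 2 * p 5 + 2 * p 2 ≤ 2 * p 6 := by exact_mod_cast h4
    have r5 : (0 : ℝ) ≤ p 3 + 2 * p 0 := by exact_mod_cast h5
    have r7 : (p 3 : ℝ) + 2 * p 0 ≤ 2 * p 2 := by exact_mod_cast h7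
    have r8 : (0 : ℝ) ≤ p 1 := by exact_mod_cast h8
    have r9 : (p 1 : ℝ) ≤ p 2 := by exact_mod_cast h9
    obtain ⟨x, hx⟩ : ∃ x : ℝ, x = (p 0 : ℝ) + (p 3 : ℝ) / 2 := ⟨_, rfl⟩
    obtain ⟨y, hy⟩ : ∃ y : ℝ, y = (p 1 : ℝ) := ⟨_, rfl⟩
    have hmin1 : min x y ≤ x := min_le_left _ _
    have hmin2 : min x y ≤ y := min_le_right _ _
    have hmin0 : 0 ≤ min x y := le_min (by rw [hx]; linarith) (by rw [hy]; exact r8)
    have hmin3 : x + y - min x y ≤ p 2 := by
      rcases le_total x y with h | h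
      · rw [min_eq_left h, hy]; linarith
      · rw [min_eq_right h, hx]; linarith
    let w : Fin 8 → ℝ := ![(p 2 : ℝ) - (x + y - min x y), x - min x y, y - min x y, min x y,
      (p 3 : ℝ) / 2, (p 3 : ℝ) / 2 + (p 4 : ℝ), (p 3 : ℝ) / 2 + (p 5 : ℝ),
      (p 6 : ℝ) - (p 2 : ℝ) - 3 * (p 3 : ℝ) / 2 - (p 4 : ℝ) - (p 5 : ℝ)]
    have hw : ∀ i, 0 ≤ w i := by
      intro i
      fin_cases i
      · show 0 ≤ (p 2 : ℝ) - (x + y - min x y)
        linarith
      · show 0 ≤ x - min x y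
        linarith
      · show 0 ≤ y - min x y
        linarith
      · exact hmin0
      · show (0 : ℝ) ≤ p 3 / 2
        linarith
      · show (0 : ℝ) ≤ p 3 / 2 + p 4
        linarith
      · show (0 : ℝ) ≤ p 3 / 2 + p 5
        linarith
      · show (0 : ℝ) ≤ p 6 - p 2 - 3 * p 3 / 2 - p 4 - p 5
        linarith
    have hs : ∑ i, w i = m := by
      rw [Fin.sum_univ_eight]
      simp [w]
      linarith
    have hp : toR p = ∑ i, w i • toR (W i) := by
      funext j
      rw [Finset.sum_apply, Fin.sum_univ_eight]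
      fin_cases j <;> simp [w, toR, W] <;> linarith
    rw [hp]
    exact mem_of_weights m w hw hs

/-- the inclusion of the lattice of the linear span -/
def inc : (Fin 6 → ℤ) →ₗ[ℤ] (Fin 7 → ℤ) where
  toFun y := ![y 0, y 1, y 2, y 3, y 4, y 5, 0]
  map_add' a b := by
    funext i
    fin_cases i <;> simp
  map_smul' a b := by
    funext i
    fin_cases i <;> simp

theorem inc_injective : Function.Injective inc := by
  intro a b h
  funext i
  fin_cases i
  · exact congrFun h 0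
  · exact congrFun h 1
  · exact congrFun h 2
  · exact congrFun h 3
  · exact congrFun h 4
  · exact congrFun h 5

theorem inc_range (x : Fin 7 → ℤ) : (∃ y, inc y = x) ↔ toR x ∈ vectorSpan ℝ PP := by
  constructor
  · rintro ⟨y, rfl⟩
    have hd : ∀ i j, toR (W i) - toR (W j) ∈ vectorSpan ℝ PP := by
      intro i j
      exact vsub_mem_vectorSpan ℝ (W_mem i) (W_mem j)
    have hx : toR (inc y) = ((y 0 : ℝ) + y 3 / 2) • (toR (W 1) - toR (W 0)) +
        (y 1 : ℝ) • (toR (W 2) - toR (W 0)) + (y 2 : ℝ) • (toR (W 0) - toR (W 7)) +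
        ((y 3 : ℝ) / 2) • (toR (W 4) - toR (W 7)) +
        ((y 4 : ℝ) + y 3 / 2) • (toR (W 5) - toR (W 7)) +
        ((y 5 : ℝ) + y 3 / 2) • (toR (W 6) - toR (W 7)) := by
      funext j
      fin_cases j <;> simp [toR, W, inc]
    rw [hx]
    exact Submodule.add_mem _ (Submodule.add_mem _ (Submodule.add_mem _ (Submodule.add_mem _
      (Submodule.add_mem _ (Submodule.smul_mem _ _ (hd _ _)) (Submodule.smul_mem _ _ (hd _ _)))
      (Submodule.smul_mem _ _ (hd _ _))) (Submodule.smul_mem _ _ (hd _ _)))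
      (Submodule.smul_mem _ _ (hd _ _))) (Submodule.smul_mem _ _ (hd _ _))
  · intro h
    have hsub : vectorSpan ℝ PP ≤ LinearMap.ker (LinearMap.proj (R := ℝ) (φ := fun _ => ℝ)
        (6 : Fin 7)) := by
      rw [vectorSpan_def, Submodule.span_le]
      rintro _ ⟨a, ha, b, hb, rfl⟩
      have ha' := height_of_mem 1 a (by simpa using ha)
      have hb' := height_of_mem 1 b (by simpa using hb)
      simp only [SetLike.mem_coe, LinearMap.mem_ker, LinearMap.proj_apply]
      simp [ha', hb']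
    have h6 : toR x 6 = 0 := by
      have := hsub h
      simpa using this
    have h6' : x 6 = 0 := by
      rw [toR] at h6
      exact_mod_cast h6
    refine ⟨![x 0, x 1, x 2, x 3, x 4, x 5], ?_⟩
    funext i
    fin_cases i <;> simp [inc, h6']

end Pool.Agent.U281.EqEhr
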