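import Mathlib

/-! Generating functions used for the equivariant Ehrhart series of the example. -/

set_option autoImplicit false

namespace Pool.Agent.U281.EqEhr

open PowerSeries Finset

/-- Adding a free nonnegative coordinate to a graded family of finite sets. -/
def ext {α : Type} [DecidableEq α] (A : ℕ → Finset α) (m : ℕ) : Finset (α × ℕ) :=
  (Finset.HasAntidiagonal.antidiagonal m).biUnion fun p => (A p.1) ×ˢ {p.2}

theorem mem_ext {α : Type} [DecidableEq α] (A : ℕ → Finset α) (m : ℕ) (a : α) (u : ℕ) :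
    (a, u) ∈ ext A m ↔ ∃ i, i + u = m ∧ a ∈ A i := by
  simp only [ext, Finset.mem_biUnion, Finset.HasAntidiagonal.mem_antidiagonal, Finset.mem_product,
    Finset.mem_singleton]
  constructor
  · rintro ⟨⟨i, j⟩, h1, h2, h3⟩
    simp only at h1 h2 h3
    exact ⟨i, by rw [h3]; exact h1, h2⟩
  · rintro ⟨i, h1, h2⟩
    exact ⟨(i, u), h1, h2, rfl⟩

theorem card_ext {α : Type} [DecidableEq α] (A : ℕ → Finset α) (m : ℕ) :
    (ext A m).card = ∑ p ∈ Finset.HasAntidiagonal.antidiagonal m, (A p.1).card := by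
  rw [ext, Finset.card_biUnion]
  · apply Finset.sum_congr rfl
    intro p _
    simp
  · intro p hp q hq hpq
    rw [Function.onFun, Finset.disjoint_left]
    rintro ⟨a, u⟩ h1 h2
    rw [Finset.mem_product, Finset.mem_singleton] at h1 h2
    apply hpq
    have e1 : p.2 = q.2 := by rw [← h1.2, ← h2.2]
    have e2 := (Finset.HasAntidiagonal.mem_antidiagonal.1 hp)
    have e3 := (Finset.HasAntidiagonal.mem_antidiagonal.1 hq)
    exact Prod.ext (by omega) e1

/-- the generating function of a graded family -/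
noncomputable def gf {α : Type} (A : ℕ → Finset α) : PowerSeries ℤ :=
  PowerSeries.mk fun n => ((A n).card : ℤ)

theorem gf_ext {α : Type} [DecidableEq α] (A : ℕ → Finset α) :
    gf (ext A) * (1 - X) = gf A := by
  have h : gf (ext A) = gf A * PowerSeries.mk 1 := by
    ext n
    rw [gf, PowerSeries.coeff_mk, card_ext, PowerSeries.coeff_mul, Nat.cast_sum]
    apply Finset.sum_congr rfl
    intro p _
    simp [gf]
  rw [h, mul_assoc, PowerSeries.mk_one_mul_one_sub_eq_one, mul_one]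

theorem gf_ext4 {α : Type} [DecidableEq α] (A : ℕ → Finset α) :
    gf (ext (ext (ext (ext A)))) * (1 - X) ^ 4 = gf A := by
  have e : gf (ext (ext (ext (ext A)))) * (1 - X) ^ 4 =
      (((gf (ext (ext (ext (ext A)))) * (1 - X)) * (1 - X)) * (1 - X)) * (1 - X) := by ring
  rw [e, gf_ext, gf_ext, gf_ext, gf_ext]

theorem coeff_succ_sub (F : PowerSeries ℤ) (n : ℕ) :
    coeff (n + 1) (F * (1 - X)) = coeff (n + 1) F - coeff n F := by
  rw [mul_sub, mul_one, map_sub, coeff_succ_mul_X]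

theorem coeff_zero_sub (F : PowerSeries ℤ) :
    coeff 0 (F * (1 - X)) = coeff 0 F := by
  rw [mul_sub, mul_one, map_sub, coeff_zero_mul_X, sub_zero]

theorem coeff_one_sub (F : PowerSeries ℤ) :
    coeff 1 (F * (1 - X)) = coeff 1 F - coeff 0 F := coeff_succ_sub F 0

theorem coeff_two_sub (F : PowerSeries ℤ) :
    coeff 2 (F * (1 - X)) = coeff 2 F - coeff 1 F := coeff_succ_sub F 1

theorem coeff_succ_sub2 (F : PowerSeries ℤ) (n : ℕ) :
    coeff (n + 2) (F * (1 - X ^ 2)) = coeff (n + 2) F - coeff n F := by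
  rw [mul_sub, mul_one, map_sub, coeff_mul_X_pow]

theorem coeff_zero_sub2 (F : PowerSeries ℤ) :
    coeff 0 (F * (1 - X ^ 2)) = coeff 0 F := by
  rw [mul_sub, mul_one, map_sub, coeff_mul_X_pow']
  simp

theorem coeff_one_sub2 (F : PowerSeries ℤ) :
    coeff 1 (F * (1 - X ^ 2)) = coeff 1 F := by
  rw [mul_sub, mul_one, map_sub, coeff_mul_X_pow']
  simp

/-- `∑ (n+1)^2 X^n` -/
theorem gfA0 : (PowerSeries.mk fun n : ℕ => ((n : ℤ) + 1) * (n + 1)) * (1 - X) ^ 3 = 1 + X := by
  rw [show (1 - X : PowerSeries ℤ) ^ 3 = (1 - X) * (1 - X) * (1 - X) by ring, ← mul_assoc,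
    ← mul_assoc]
  ext n
  rcases n with _ | _ | _ | n
  · simp only [coeff_zero_sub]
    simp
  · simp only [zero_add, coeff_one_sub, coeff_zero_sub]
    simp [coeff_one_X]
  · simp only [zero_add, Nat.reduceAdd, coeff_two_sub, coeff_one_sub, coeff_zero_sub]
    simp [coeff_X, coeff_one]
  · simp only [coeff_succ_sub]
    simp [coeff_X, coeff_one]
    ring

/-- `∑ n (n+1) X^n` -/
theorem gfA1 : (PowerSeries.mk fun n : ℕ => (n : ℤ) * (n + 1)) * (1 - X) ^ 3 = 2 * X := by
  rw [show (1 - X : PowerSeries ℤ) ^ 3 = (1 - X) * (1 - X) * (1 - X) by ring, ← mul_assoc,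
    ← mul_assoc]
  rw [show (2 : PowerSeries ℤ) * X = X + X by ring]
  ext n
  rcases n with _ | _ | _ | n
  · simp only [coeff_zero_sub]
    simp
  · simp only [zero_add, coeff_one_sub, coeff_zero_sub]
    simp [coeff_one_X]
  · simp only [zero_add, Nat.reduceAdd, coeff_two_sub, coeff_one_sub, coeff_zero_sub]
    simp [coeff_X]
  · simp only [coeff_succ_sub]
    simp [coeff_X]
    ring

/-- `∑_{n even} (n+1) X^n` -/
theorem gfB0 : (PowerSeries.mk fun n : ℕ => if n % 2 = 0 then ((n : ℤ) + 1) else 0) *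
    (1 - X ^ 2) ^ 2 = 1 + X ^ 2 := by
  rw [show (1 - X ^ 2 : PowerSeries ℤ) ^ 2 = (1 - X ^ 2) * (1 - X ^ 2) by ring, ← mul_assoc]
  ext n
  rcases n with _ | _ | _ | _ | n
  · simp [coeff_zero_sub2]
  · rw [coeff_one_sub2, coeff_one_sub2]
    simp [coeff_X_pow, coeff_one]
  · rw [coeff_succ_sub2, coeff_zero_sub2, coeff_succ_sub2]
    simp [coeff_X_pow, coeff_one]
  · rw [coeff_succ_sub2, coeff_one_sub2, coeff_succ_sub2]
    simp [coeff_X_pow, coeff_one]
  · rw [coeff_succ_sub2, coeff_succ_sub2, coeff_succ_sub2]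
    have e1 : (n + 2 + 2) % 2 = n % 2 := by omega
    have e2 : (n + 2) % 2 = n % 2 := by omega
    simp only [coeff_mk, e1, e2]
    rcases Nat.mod_two_eq_zero_or_one n with h | h
    · simp [h, coeff_X_pow, coeff_one]
    · simp [h, coeff_X_pow, coeff_one]

/-- `∑_{n odd} (n+1) X^n` -/
theorem gfB1 : (PowerSeries.mk fun n : ℕ => if n % 2 = 1 then ((n : ℤ) + 1) else 0) *
    (1 - X ^ 2) ^ 2 = 2 * X := by
  rw [show (1 - X ^ 2 : PowerSeries ℤ) ^ 2 = (1 - X ^ 2) * (1 - X ^ 2) by ring, ← mul_assoc]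
  rw [show (2 : PowerSeries ℤ) * X = X + X by ring]
  ext n
  rcases n with _ | _ | _ | _ | n
  · simp [coeff_zero_sub2]
  · rw [coeff_one_sub2, coeff_one_sub2]
    simp [coeff_X]
  · rw [coeff_succ_sub2, coeff_zero_sub2, coeff_succ_sub2]
    simp [coeff_X]
  · rw [coeff_succ_sub2, coeff_one_sub2, coeff_succ_sub2]
    simp [coeff_X]
  · rw [coeff_succ_sub2, coeff_succ_sub2, coeff_succ_sub2]
    have e1 : (n + 2 + 2) % 2 = n % 2 := by omega
    have e2 : (n + 2) % 2 = n % 2 := by omega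
    simp only [coeff_mk, e1, e2]
    rcases Nat.mod_two_eq_zero_or_one n with h | h
    · simp [h, coeff_X]
    · simp [h, coeff_X]

end Pool.Agent.U281.EqEhr
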